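import Pool.Agent.H.MP_598c06_an.B

set_option autoImplicit false
open Set

namespace Pool.Agent.Results.MP_598c06_an.Yes

def Adj {n : ℕ} (T : FreeGroup (Fin n) → Bool) (x y : FreeGroup (Fin n)) : Prop :=
  T x ∧ T y ∧ ∃ i, y = x * .of i ∨ x = y * .of i

abbrev X (n : ℕ) :=
  {T : FreeGroup (Fin n) → Bool //
    T 1 ∧ {g | T g}.Infinite ∧ ∀ g, T g → Relation.ReflTransGen (Adj T) 1 g}

def leaf {n : ℕ} (T : X n) : Set (X n) := {S | ∃ g, T.1 g ∧ ∀ h, S.1 h = T.1 (g * h)}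

def Level {n : ℕ} : ℕ → Set (X n) → Prop
  | 0, M => ∀ T ∈ M, closure (leaf T) = M
  | k + 1, M => closure {T ∈ M | closure (leaf T) ≠ M} ⊂ M ∧
      (∀ T ∈ M, closure (leaf T) ≠ M → ∃ j : Fin (k + 1), Level j (closure (leaf T))) ∧
      ∃ T ∈ M, closure (leaf T) ≠ M ∧ Level k (closure (leaf T))
  termination_by k => k

theorem result (k : ℕ) (hk : 1 ≤ k) : ∃ n, 2 ≤ n ∧ ∃ T : X n,
    Level k (closure (leaf T)) ∧ ∀ j, Level j (closure (leaf T)) → j = k := by
  have e : ∀ (n j : ℕ) (M : Set (X n)), Level j M ↔ H.MP_598c06_an.Level leaf j M := by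
    intro n j
    induction j using Nat.strong_induction_on with
    | _ j ih =>
      intro M
      rcases j with _ | j
      · rw [Level, H.MP_598c06_an.Level]
      · rw [Level, H.MP_598c06_an.Level]
        simp only [ih j (by omega), fun i : Fin (j + 1) => ih i i.2]
  obtain ⟨T, hT⟩ := H.MP_598c06_an.main k hk
  exact ⟨k + 1, by omega, T, (e _ _ _).2 hT, fun j hj =>
    H.MP_598c06_an.uniq k _ j hT ((e _ _ _).1 hj)⟩

end Pool.Agent.Results.MP_598c06_an.Yes
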